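import Pool.Agent.Helper9.MTK.Sheet
import Pool.Agent.Helper99.SUB.LAU1

/-!
Project T3K, row GEOL: the curve `y ^ 2 = F x` has no nonconstant points in Laurent polynomials in
several variables.
-/

set_option autoImplicit false

namespace Pool.Agent.Helper99.MTK

open Finset Polynomial Pool.Agent.Helper77.SUBK Pool.Agent.Helper9.MTK
open Pool.Agent.Helper99.SUB (pair pair_add exists_sep)

/-- the linear form `m ↦ δ · m` as a homomorphism -/
def pairH {r : ℕ} (δ : Fin r → ℤ) : (Fin r → ℤ) →+ ℤ where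
  toFun := pair δ
  map_zero' := by simp [pair]
  map_add' := pair_add δ

/-- common denominators of four Laurent polynomials -/
theorem exists_four {R : Type} [Field R] (A B C D : LaurentPolynomial R) :
    ∃ (k : ℤ) (p q n m : R[X]),
      toLaurent p = A * LaurentPolynomial.T k ∧ toLaurent q = B * LaurentPolynomial.T k ∧
      toLaurent n = C * LaurentPolynomial.T k ∧ toLaurent m = D * LaurentPolynomial.T k := by
  obtain ⟨a, fa, ha⟩ := LaurentPolynomial.exists_T_pow A
  obtain ⟨b, fb, hb⟩ := LaurentPolynomial.exists_T_pow B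
  obtain ⟨c, fc, hc⟩ := LaurentPolynomial.exists_T_pow C
  obtain ⟨d, fd, hd⟩ := LaurentPolynomial.exists_T_pow D
  refine ⟨(a : ℤ) + b + c + d, fa * X ^ (b + c + d), fb * X ^ (a + c + d), fc * X ^ (a + b + d),
    fd * X ^ (a + b + c), ?_, ?_, ?_, ?_⟩
  · rw [map_mul, ha, Polynomial.toLaurent_X_pow, mul_assoc, ← LaurentPolynomial.T_add]
    congr 2; push_cast; ring
  · rw [map_mul, hb, Polynomial.toLaurent_X_pow, mul_assoc, ← LaurentPolynomial.T_add]
    congr 2; push_cast; ring
  · rw [map_mul, hc, Polynomial.toLaurent_X_pow, mul_assoc, ← LaurentPolynomial.T_add]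
    congr 2; push_cast; ring
  · rw [map_mul, hd, Polynomial.toLaurent_X_pow, mul_assoc, ← LaurentPolynomial.T_add]
    congr 2; push_cast; ring

theorem st_GEOL (hG : ST_GEO) : ST_GEOL := by
  classical
  intro M _ _ d F r P Q N T hd hF hsep hQ hT h
  set E : Finset (Fin r → ℤ) := P.coeff.support ∪ Q.coeff.support ∪ T.coeff.support with hE
  obtain ⟨δ, hδ⟩ := exists_sep E
  set Φ : LauM M r →ₐ[M] LaurentPolynomial M :=
    AddMonoidAlgebra.mapDomainAlgHom M M (pairH δ) with hΦ
  have hinj : ∀ A : LauM M r, A.coeff.support ⊆ E → Φ A = 0 → A = 0 := by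
    intro A hA h0
    have h1 : Finsupp.mapDomain (pairH δ) A.coeff = 0 := by
      have h2 : (Φ A).coeff = Finsupp.mapDomain (pairH δ) A.coeff :=
        AddMonoidAlgebra.coeff_mapDomain (pairH δ) A
      rw [← h2, h0]
      rfl
    have h3 : Set.InjOn (pairH δ) (E : Set (Fin r → ℤ)) := fun m hm m' hm' he => hδ m hm m' hm' he
    have h4 := Finsupp.mapDomain_injOn (M := M) (E : Set (Fin r → ℤ)) h3
    have h5 : A.coeff = 0 := by
      refine h4 (by exact_mod_cast hA) (by simp) ?_
      rw [h1, Finsupp.mapDomain_zero]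
    exact AddMonoidAlgebra.coeff_eq_zero.1 h5
  have hQ' : Φ Q ≠ 0 := fun h0 => hQ (hinj Q (by
    rw [hE]; exact (subset_union_right).trans subset_union_left) h0)
  have hT' : Φ T ≠ 0 := fun h0 => hT (hinj T (by rw [hE]; exact subset_union_right) h0)
  obtain ⟨k, p, q, n, m, hp, hq, hn, hm⟩ := exists_four (Φ P) (Φ Q) (Φ N) (Φ T)
  have hu : IsUnit (LaurentPolynomial.T k : LaurentPolynomial M) := LaurentPolynomial.isUnit_T k
  have hq0 : q ≠ 0 := by
    rintro rfl
    rw [map_zero] at hq
    exact hQ' ((hu.mul_left_eq_zero).1 hq.symm)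
  have hm0 : m ≠ 0 := by
    rintro rfl
    rw [map_zero] at hm
    exact hT' ((hu.mul_left_eq_zero).1 hm.symm)
  have hmain : n ^ 2 * q ^ d = m ^ 2 * ∑ i ∈ range (d + 1), C (F.coeff i) * p ^ i * q ^ (d - i) := by
    apply Polynomial.toLaurent_injective
    rw [map_mul, map_pow, map_pow, map_mul, map_pow, map_sum, hn, hq, hm]
    have h6 := congrArg Φ h
    rw [map_mul, map_pow, map_pow, map_mul, map_pow, map_sum] at h6
    set τ : LaurentPolynomial M := LaurentPolynomial.T k with hτ
    have h7 : ∑ i ∈ range (d + 1), toLaurent (C (F.coeff i) * p ^ i * q ^ (d - i))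
        = (∑ i ∈ range (d + 1), Φ (F.coeff i • (P ^ i * Q ^ (d - i)))) * τ ^ d := by
      rw [Finset.sum_mul]
      refine Finset.sum_congr rfl fun i hi => ?_
      have hid : i + (d - i) = d := by
        have := Finset.mem_range.1 hi
        omega
      rw [map_mul, map_mul, map_pow, map_pow, hp, hq, map_smul, map_mul, map_pow, map_pow,
        Polynomial.toLaurent_C, LaurentPolynomial.smul_eq_C_mul, mul_pow, mul_pow]
      have hτd : τ ^ d = τ ^ i * τ ^ (d - i) := by rw [← pow_add, hid]
      rw [hτd]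
      ring
    rw [h7]
    calc (Φ N * τ) ^ 2 * (Φ Q * τ) ^ d = (Φ N ^ 2 * Φ Q ^ d) * (τ ^ 2 * τ ^ d) := by
          rw [mul_pow, mul_pow]; ring
      _ = _ := by rw [h6, mul_pow]; ring
  obtain ⟨c, hc⟩ := hG M d F p q n m hd hF hsep hq0 hm0 hmain
  refine ⟨c, ?_⟩
  have h8 : Φ P = c • Φ Q := by
    have h9 := congrArg toLaurent hc
    rw [map_mul, hp, hq, Polynomial.toLaurent_C, ← mul_assoc] at h9
    rw [LaurentPolynomial.smul_eq_C_mul]
    exact hu.mul_right_cancel h9
  have h10 : P - c • Q = 0 := by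
    apply hinj
    · intro e he
      rw [Finsupp.mem_support_iff, AddMonoidAlgebra.coeff_sub, AddMonoidAlgebra.coeff_smul,
        Finsupp.sub_apply, Finsupp.smul_apply, smul_eq_mul] at he
      rw [hE, mem_union, mem_union, Finsupp.mem_support_iff, Finsupp.mem_support_iff]
      by_contra hcon
      push Not at hcon
      rw [hcon.1.1, hcon.1.2] at he
      simp at he
    · rw [map_sub, map_smul, h8, sub_self]
  exact sub_eq_zero.1 h10

end Pool.Agent.Helper99.MTK
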