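import Pool.Agent.Helper9.MTK.Sheet

/-!
Project T3K, row HC: comparison of the heights in two number fields.
-/

set_option autoImplicit false

namespace Pool.Agent.Helper99.MTK

open Finset NumberField Height Pool.Agent.Helper9.MTK

section

variable {K : Type} [Field K] [NumberField K]

theorem fin_le_one (v : FinitePlace K) (x : K) (hx : IsIntegral ℤ x) : v x ≤ 1 := by
  have h := FinitePlace.norm_le_one K v.maximalIdeal (⟨x, hx⟩ : 𝓞 K)
  rwa [FinitePlace.norm_embedding_eq] at h

theorem one_le_fin (x : K) : 1 ≤ ∏ᶠ v : FinitePlace K, max (v x) 1 :=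
  finprod_induction (fun y : ℝ => 1 ≤ y) le_rfl
    (fun _ _ h h' => one_le_mul_of_one_le_of_one_le h h') fun _ => le_max_right _ _

/-- the archimedean absolute values are at most the height -/
theorem inf_le (v : InfinitePlace K) (x : K) : v x ≤ mulHeight₁ x := by
  classical
  rw [NumberField.mulHeight₁_eq, ← Finset.mul_prod_erase _ _ (Finset.mem_univ v)]
  have h1 : 1 ≤ ∏ w ∈ (Finset.univ : Finset (InfinitePlace K)).erase v, max (w x) 1 ^ w.mult :=
    Finset.prod_induction _ (fun y : ℝ => 1 ≤ y)
      (fun _ _ h h' => one_le_mul_of_one_le_of_one_le h h') le_rfl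
      fun w _ => one_le_pow₀ (le_max_right _ _)
  have h2 := one_le_fin x
  have h3 : v x ≤ max (v x) 1 ^ v.mult :=
    (le_max_left _ _).trans (le_self_pow₀ (le_max_right _ _) v.mult_ne_zero)
  have h4 : 0 ≤ max (v x) 1 ^ v.mult := by positivity
  calc v x ≤ max (v x) 1 ^ v.mult * 1 := by rw [mul_one]; exact h3
    _ ≤ max (v x) 1 ^ v.mult * ((∏ w ∈ (Finset.univ : Finset (InfinitePlace K)).erase v,
        max (w x) 1 ^ w.mult) * ∏ᶠ v : FinitePlace K, max (v x) 1) :=
        mul_le_mul_of_nonneg_left (one_le_mul_of_one_le_of_one_le h1 h2) h4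
    _ = _ := by ring

/-- the height of an integral element -/
theorem height_int_le (x : K) (hx : IsIntegral ℤ x) (B : ℝ) (hB : 1 ≤ B)
    (h : ∀ v : InfinitePlace K, v x ≤ B) : mulHeight₁ x ≤ B ^ totalWeight K := by
  rw [NumberField.mulHeight₁_eq, finprod_eq_one_of_forall_eq_one
    (fun v : FinitePlace K => max_eq_right (fin_le_one v x hx)), mul_one,
    NumberField.totalWeight_eq_sum_mult, ← Finset.prod_pow_eq_pow_sum]
  exact Finset.prod_le_prod (fun v _ => by positivity)
    fun v _ => pow_le_pow_left₀ (by positivity) (max_le (h v) hB) _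

/-- the height of an element with small denominator and small archimedean absolute values -/
theorem height_le (x : K) (D : ℕ) (hD : D ≠ 0) (hx : IsIntegral ℤ ((D : K) * x)) (B : ℝ)
    (hB : 1 ≤ B) (hDB : (D : ℝ) ≤ B) (h : ∀ v : InfinitePlace K, v x ≤ B) :
    mulHeight₁ x ≤ B ^ (3 * totalWeight K) := by
  have hD' : (D : K) ≠ 0 := by exact_mod_cast hD
  have hvD : ∀ v : InfinitePlace K, v (D : K) = D := fun v => by simp
  have h1 : mulHeight₁ (D : K) ≤ B ^ totalWeight K :=
    height_int_le _ (isIntegral_algebraMap (R := ℤ) (x := (D : ℤ)) |> fun h => by simpa using h) B hB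
      fun v => by rw [hvD]; exact hDB
  have h2 : mulHeight₁ ((D : K) * x) ≤ (B * B) ^ totalWeight K := by
    refine height_int_le _ hx _ (one_le_mul_of_one_le_of_one_le hB hB) fun v => ?_
    rw [map_mul, hvD]
    exact mul_le_mul hDB (h v) (apply_nonneg v x) (by linarith)
  have h3 : x = ((D : K) * x) * (D : K)⁻¹ := by field_simp
  calc mulHeight₁ x = mulHeight₁ (((D : K) * x) * (D : K)⁻¹) := by rw [← h3]
    _ ≤ mulHeight₁ ((D : K) * x) * mulHeight₁ (D : K)⁻¹ := mulHeight₁_mul_le _ _
    _ = mulHeight₁ ((D : K) * x) * mulHeight₁ (D : K) := by rw [mulHeight₁_inv]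
    _ ≤ (B * B) ^ totalWeight K * B ^ totalWeight K :=
        mul_le_mul h2 h1 (mulHeight₁_nonneg _) (by positivity)
    _ = _ := by rw [← mul_pow, mul_comm 3, pow_mul', ← pow_mul]; ring

end

theorem st_HC : ST_HC := by
  intro K M _ _ _ _ f
  refine ⟨3 * totalWeight M + 3 * totalWeight K, ?_, fun a => ⟨?_, ?_⟩⟩
  · have := NumberField.totalWeight_pos M
    omega
  · have h1 := one_le_mulHeight₁ a
    obtain ⟨D, hD, hDle, hint⟩ := NumberField.exists_nat_le_mulHeight₁ a
    have hint' : IsIntegral ℤ ((D : M) * f a) := by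
      have h := hint.map f.toIntAlgHom
      have e : f.toIntAlgHom ((D : K) * a) = (D : M) * f a := by
        change f ((D : K) * a) = _
        rw [map_mul, map_natCast]
      rwa [e] at h
    refine (height_le (f a) D hD hint' _ h1 hDle fun w => ?_).trans
      (pow_le_pow_right₀ h1 (by omega))
    rw [← InfinitePlace.comap_apply]
    exact inf_le _ _
  · have h1 := one_le_mulHeight₁ (f a)
    obtain ⟨D, hD, hDle, hint⟩ := NumberField.exists_nat_le_mulHeight₁ (f a)
    have hint' : IsIntegral ℤ ((D : K) * a) := by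
      have e : f.toIntAlgHom ((D : K) * a) = (D : M) * f a := by
        change f ((D : K) * a) = _
        rw [map_mul, map_natCast]
      rw [← e] at hint
      exact (isIntegral_algHom_iff f.toIntAlgHom f.injective).1 hint
    refine (height_le a D hD hint' _ h1 hDle fun v => ?_).trans
      (pow_le_pow_right₀ h1 (by omega))
    let : Algebra K M := f.toAlgebra
    have : Algebra.IsAlgebraic K M := Algebra.IsAlgebraic.tower_top (K := ℚ) K
    obtain ⟨w, hw⟩ := InfinitePlace.comap_surjective (k := K) (K := M) v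
    rw [← hw]
    change (w.comap (algebraMap K M)) a ≤ _
    rw [InfinitePlace.comap_apply]
    exact inf_le w (f a)

end Pool.Agent.Helper99.MTK
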